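import Pool.Agent.J6H49.KT.Main

/-!
# The tally set is truth-table complete
-/

set_option autoImplicit false

namespace Pool.Agent.J6H17.KTC

open Pool.Agent.NPC Pool.Agent.H628R3.RO Filter Pool.Agent.J6H49.OP Pool.Agent.J6H49.IP
open Pool.Agent.J6H54.RO
open Pool.Agent.H620R2.Gauge (SAlg IsPSPACE)
open Pool.Agent.H620R2.Gauge.CC (Acc cut)
open Pool.Agent.H622R2 (poly_pairBits)
open Pool.Agent.TH678.GC (join)
open Pool.Agent.TH678.RS (bt)
open Pool.Agent.Y626.WX (Cp cod exists_cp)
open Pool.Agent.J6H49.PHC (oracle far)
open Pool.Agent.J6H49.ES (pin pin_inj length_pin p_pin)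
open Pool.Agent.J6H49.KW

/-- `L` is reducible to `X` by a truth-table reduction in polynomial time, relative to the oracle `B`:
a function computable in polynomial time (without an oracle) maps `x` to a list `Q x` of questions,
and `x ∈ L` if and only if `E`, computable in polynomial time relative to `B`, maps `x` and the answers
of `X` to these questions to `true`. -/
def TTRed (B X : Oracle) (L : Set (List Bool)) : Prop :=
  ∃ (Q : List Bool → List (List Bool)) (E : List Bool → List Bool), Poly Q ∧ IsFP B E ∧
    ∀ x, x ∈ L ↔ E (pairBits x ((Q x).map X)) = [true]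

section

variable {g : ℕ → SAlg × Polynomial ℕ} {S : ℕ → Polynomial ℕ} {Φ : Oracle → Oracle}
  {α : ℕ → ℕ} {C : Oracle} {T : ℕ → Bool} {Z : ℕ → ℕ → ℕ → Bool}

theorem tp_getElem? (T : ℕ → Bool) {i m : ℕ} (h : m < (i + 1) ^ 3) :
    (tp T i)[m]? = some (T m) := by
  unfold tp
  rw [List.getElem?_map, List.getElem?_range h]
  rfl

theorem getElem?_of_eq {u v l : List Bool} (h : u ++ true :: v = l) : l[u.length]? = some true := by
  rw [← h, List.getElem?_append_right le_rfl]
  simp

/-- the condition for the verifier -/
def cnd (z : List Bool) : Prop :=
  (unpair z).1 = List.replicate (unpair (unpair z).2).1.length true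

instance : DecidablePred cnd := fun _ => by unfold cnd; infer_instance

theorem isNP_tally (hg : Function.Surjective g) (hc : Cp g S (bt α) Φ) :
    IsNP (OO hc C T Z) {x | tally T x = true} := by
  have h0 : IsPSPACE (OO hc C T Z) ∅ := by
    refine Pool.Agent.J6H49.ES.isPSPACE_of_isNP ⟨fun _ => [], 0, IsFP.of_poly (NPC.Poly.const _),
      fun x => ?_⟩
    simp
  obtain ⟨e, he⟩ := exists_code hg hc h0
  have he' : ∀ x w, OO hc C T Z (qs S e false x w) = true ↔ w = tp T (lvx S e x) := by
    intro x w
    rw [he]
    simp
  obtain ⟨p, hp⟩ := exists_wl S e T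
  have p1 : Poly (fun z : List Bool => (unpair z).1) := Poly.fst poly_unpair
  have p2 : Poly (fun z : List Bool => (unpair z).2) := Poly.snd poly_unpair
  have p3 : Poly (fun z : List Bool => (unpair (unpair z).2).1) := Poly.fst (poly_unpair.comp p2)
  have p4 : Poly (fun z : List Bool => (unpair (unpair z).2).2) := Poly.snd (poly_unpair.comp p2)
  have p5 : Poly (fun z : List Bool => (unpair (unpair z).2).1 ++ true :: (unpair (unpair z).2).2) :=
    Poly.append p3 (Poly.cons (NPC.Poly.const true) p4)
  have p6 : Poly (fun z : List Bool => decide (cnd z)) :=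
    Poly.decide_eq p1 (p_replicate (UPoly.length p3) true)
  refine ⟨fun z => if cnd z then [OO hc C T Z (qs S e false (unpair z).1
    ((unpair (unpair z).2).1 ++ true :: (unpair (unpair z).2).2))] else [false],
    2 * p + 1, ?_, fun x => ?_⟩
  · exact IsFP.tt (Q := fun z => [qs S e false (unpair z).1
      ((unpair (unpair z).2).1 ++ true :: (unpair (unpair z).2).2)])
      (H := fun q => if cnd q.1 then q.2 else [false])
      (Poly.cons (p_qs S e false p1 p5) (NPC.Poly.const []))
      (Poly.ite (Poly.comp p6 (Poly.fst Poly.id)) (Poly.snd Poly.id) (NPC.Poly.const [false]))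
  · have hlt : x.length < (lvx S e x + 1) ^ 3 := by
      have h1 : x.length ≤ lvx S e x := by
        unfold lvx
        have h2 := hc.big e (pin x (0, 0, 0)).length
        rw [length_pin] at h2 ⊢
        omega
      have h2 : lvx S e x + 1 ≤ (lvx S e x + 1) ^ 3 := Nat.le_self_pow (by norm_num) _
      omega
    constructor
    · intro hx
      have h1 : x = List.replicate x.length true ∧ T x.length = true := by
        simpa [tally] using hx
      have hl : (tp T (lvx S e x)).length = (lvx S e x + 1) ^ 3 := length_tp T _
      have h2 : (tp T (lvx S e x)).take x.length ++ true ::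
          (tp T (lvx S e x)).drop (x.length + 1) = tp T (lvx S e x) := by
        have h3 : x.length < (tp T (lvx S e x)).length := by rw [hl]; exact hlt
        have h4 : (tp T (lvx S e x))[x.length] = true := by
          have h5 := tp_getElem? T hlt
          rw [List.getElem?_eq_getElem h3, Option.some.injEq] at h5
          rw [h5, h1.2]
        rw [← h4, List.getElem_cons_drop, List.take_append_drop]
      refine ⟨pairBits ((tp T (lvx S e x)).take x.length)
        ((tp T (lvx S e x)).drop (x.length + 1)), ?_, ?_⟩
      · rw [length_pairBits, List.length_take, List.length_drop]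
        have h3 := hp x
        simp only [Polynomial.eval_add, Polynomial.eval_mul, Polynomial.eval_ofNat,
          Polynomial.eval_one]
        omega
      · have h5 : cnd (pairBits x (pairBits ((tp T (lvx S e x)).take x.length)
            ((tp T (lvx S e x)).drop (x.length + 1)))) := by
          unfold cnd
          rw [unpair_pairBits]
          show x = List.replicate (unpair (pairBits _ _)).1.length true
          rw [unpair_pairBits]
          show x = List.replicate ((tp T (lvx S e x)).take x.length).length true
          rw [List.length_take, hl, min_eq_left hlt.le]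
          exact h1.1
        beta_reduce
        rw [if_pos h5, unpair_pairBits]
        show [OO hc C T Z (qs S e false x ((unpair (pairBits _ _)).1 ++ true ::
          (unpair (pairBits _ _)).2))] = [true]
        rw [unpair_pairBits]
        show [OO hc C T Z (qs S e false x ((tp T (lvx S e x)).take x.length ++ true ::
          (tp T (lvx S e x)).drop (x.length + 1)))] = [true]
        rw [h2, (he' x _).2 rfl]
    · rintro ⟨w, -, hw⟩
      by_cases hcn : cnd (pairBits x w)
      · beta_reduce at hw
        rw [if_pos hcn, unpair_pairBits, List.cons.injEq] at hw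
        have h1 := (he' x _).1 hw.1
        have h2 := getElem?_of_eq h1
        unfold cnd at hcn
        rw [unpair_pairBits] at hcn
        change x = List.replicate (unpair w).1.length true at hcn
        change (tp T (lvx S e x))[(unpair w).1.length]? = some true at h2
        have h3 : (unpair w).1.length = x.length := by
          rw [hcn, List.length_replicate]
        rw [h3, tp_getElem? T hlt, Option.some.injEq] at h2
        show tally T x = true
        rw [h3] at hcn
        unfold tally
        rw [h2, Bool.and_true]
        exact decide_eq_true hcn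
      · beta_reduce at hw
        rw [if_neg hcn] at hw
        simp at hw

/-- **The tally set is hard for polynomial space under truth-table reductions.** -/
theorem ttred (hg : Function.Surjective g) (hc : Cp g S (bt α) Φ) {L : Set (List Bool)}
    (hL : IsPSPACE (OO hc C T Z) L) (c : Bool) :
    TTRed (OO hc C T Z) (fun u => c ^^ tally T u) L := by
  obtain ⟨e, he⟩ := exists_code hg hc hL
  have hu : UPoly (fun x : List Bool => (lvx S e x + 1) ^ 3) := by
    have h := UPoly.eval (u_lvx S e (x := fun x : List Bool => x) Poly.id) ((Polynomial.X + 1) ^ 3)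
    simpa using h
  refine ⟨fun x => (List.range ((lvx S e x + 1) ^ 3)).map
        fun m => List.replicate (min m ((lvx S e x + 1) ^ 3)) true,
    fun z => [OO hc C T Z (qs S e true (unpair z).1 ((unpair z).2.map fun b => c ^^ b))],
    ?_, ?_, fun x => ?_⟩
  · have a1 : Poly (fun p : List Bool × ℕ => p.1) := Poly.fst Poly.id
    have a2 : Poly (fun p : List Bool × ℕ => p.2) := Poly.snd Poly.id
    have h3 : UPoly (fun p : List Bool × ℕ => min p.2 ((lvx S e p.1 + 1) ^ 3)) :=
      UPoly.of_le (Poly.min a2 ((hu.comp a1).toPoly)) (hu.comp a1) fun p => min_le_right _ _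
    exact NPC.Poly.map (F := fun (x : List Bool) m =>
      List.replicate (min m ((lvx S e x + 1) ^ 3)) true) hu.range (p_replicate h3 true)
  · have hm : Poly (fun z : List Bool => (unpair z).2.map fun b => c ^^ b) :=
      NPC.Poly.map (F := fun (_ : List Bool) (b : Bool) => c ^^ b) (Poly.snd poly_unpair)
        (by
          cases c
          · simpa using (Poly.snd Poly.id : Poly (fun p : List Bool × Bool => p.2))
          · simpa using Poly.not (Poly.snd Poly.id : Poly (fun p : List Bool × Bool => p.2)))
    exact IsFP.tt (Q := fun z => [qs S e true (unpair z).1 ((unpair z).2.map fun b => c ^^ b)])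
      (H := fun p => p.2)
      (Poly.cons (p_qs S e true (Poly.fst poly_unpair) hm) (NPC.Poly.const []))
      (Poly.snd Poly.id)
  · have h3 : (((List.range ((lvx S e x + 1) ^ 3)).map
        fun m => List.replicate (min m ((lvx S e x + 1) ^ 3)) true).map
          fun u => c ^^ tally T u).map (fun b => c ^^ b) = tp T (lvx S e x) := by
      unfold tp
      rw [List.map_map, List.map_map]
      apply List.map_congr_left
      intro m hm
      rw [List.mem_range] at hm
      show (c ^^ (c ^^ tally T (List.replicate (min m _) true))) = T m
      rw [min_eq_left hm.le, tally_at]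
      cases c <;> simp
    show x ∈ L ↔ [OO hc C T Z (qs S e true (unpair (pairBits x _)).1
      ((unpair (pairBits x _)).2.map fun b => c ^^ b))] = [true]
    rw [unpair_pairBits, h3]
    show x ∈ L ↔ [OO hc C T Z (qs S e true x (tp T (lvx S e x)))] = [true]
    rw [List.cons.injEq, he]
    simp

end

end Pool.Agent.J6H17.KTC
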